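import Pool.Agent.N152.HN.Grp

/-!
# Closed curves `ℂ*` in `X`
-/

set_option autoImplicit false

open scoped Manifold ContDiff Topology
open Set Filter TopologicalSpace

namespace Pool.Agent.N152.HN

open Pool.Agent.W711.KC

theorem contMDiff_pr0 : ContMDiff 𝓘(ℂ, C3) 𝓘(ℂ, C3) ω pr0 := by
  intro q
  rw [contMDiffAt_iff]
  refine ⟨continuous_pr0.continuousAt, ?_⟩
  obtain ⟨_, ⟨m, n, p, rfl⟩, h1, h2⟩ := local_pr' (chart_mem_atlas C3 (pr0 q)) ⟨q, trivial⟩
    (mem_chart_source C3 (pr0 q))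
  apply ContDiffAt.contDiffWithinAt
  refine ContDiffAt.congr_of_eventuallyEq (f := act m n p) ?_ ?_
  · exact (contDiff_act m n p).contDiffAt
  · filter_upwards [h2] with z hz
    exact (hz trivial).trans (ex_actP m n p z)

/-- A subset of `X` is closed iff its preimage in `ℂ³` is. -/
theorem isClosed_iff {S : Set XX} : IsClosed S ↔ IsClosed (pr0 ⁻¹' S) := by
  refine ⟨fun h => h.preimage continuous_pr0, fun h => ?_⟩
  have hq : Topology.IsQuotientMap (pr GG) := isQuotientMap_quotient_mk'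
  rw [← hq.isClosed_preimage]
  exact h.preimage continuous_subtype_val

/-! ### The exponential and the logarithm -/

/-- a logarithm. -/
noncomputable def LL (w : ℂ) : ℂ := Complex.log w / (2 * Real.pi * Complex.I)

/-- the exponential map `ℂ → ℂ*`. -/
noncomputable def EE (s : ℂ) : ℂˣ := Units.mk0 (Complex.exp (2 * Real.pi * Complex.I * s))
  (Complex.exp_ne_zero _)

theorem twoPiI : (2 * Real.pi * Complex.I : ℂ) ≠ 0 := Complex.two_pi_I_ne_zero

theorem EE_eq_iff {s t : ℂ} : EE s = EE t ↔ ∃ n : ℤ, s = t + n := by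
  unfold EE
  rw [Units.mk0_inj, Complex.exp_eq_exp_iff_exists_int]
  refine exists_congr fun n => ?_
  rw [show 2 * Real.pi * Complex.I * t + n * (2 * Real.pi * Complex.I) =
    2 * Real.pi * Complex.I * (t + n) by ring]
  exact mul_right_inj' twoPiI

theorem EE_LL (w : ℂˣ) : EE (LL w) = w := by
  apply Units.ext
  unfold EE LL
  rw [Units.val_mk0, mul_div_cancel₀ _ twoPiI, Complex.exp_log w.ne_zero]

theorem continuous_EE : Continuous EE := by
  rw [Units.isEmbedding_val₀.continuous_iff]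
  have : (Units.val ∘ EE) = fun s => Complex.exp (2 * Real.pi * Complex.I * s) := rfl
  rw [this]
  fun_prop

theorem LL_local (w₀ w : ℂˣ) :
    ∃ n : ℤ, LL w₀ + Complex.log (w / w₀) / (2 * Real.pi * Complex.I) = LL w + n := by
  rw [← EE_eq_iff, EE_LL]
  apply Units.ext
  unfold EE LL
  rw [Units.val_mk0, mul_add, mul_div_cancel₀ _ twoPiI, mul_div_cancel₀ _ twoPiI, Complex.exp_add,
    Complex.exp_log w₀.ne_zero, Complex.exp_log (div_ne_zero w.ne_zero w₀.ne_zero)]
  exact mul_div_cancel₀ _ w₀.ne_zero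

theorem contMDiff_curve {F : ℂ → C3} (hF : ContDiff ℂ ω F)
    (h3 : ∀ s (n : ℤ), pr0 (F (s + n)) = pr0 (F s)) :
    ContMDiff 𝓘(ℂ, ℂ) 𝓘(ℂ, C3) ω (fun w : ℂˣ => pr0 (F (LL w))) := by
  intro w₀
  set G : ℂ → C3 := fun w => F (LL w₀ + Complex.log (w / w₀) / (2 * Real.pi * Complex.I)) with hG
  have e : (fun w : ℂˣ => pr0 (F (LL w))) = fun w : ℂˣ => pr0 (G w) := by
    funext w
    obtain ⟨n, hn⟩ := LL_local w₀ w
    simp only [hG]
    rw [hn, h3]
  have h1 : ContDiffAt ℂ ω G (w₀ : ℂ) := by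
    have h2 : ContDiffAt ℂ ω (fun w : ℂ => Complex.log (w / w₀)) (w₀ : ℂ) := by
      refine ContDiffAt.comp (g := Complex.log) (f := fun w : ℂ => w / w₀) (w₀ : ℂ)
        (Complex.contDiffAt_log ?_) (contDiffAt_id.div_const _)
      rw [div_self w₀.ne_zero]
      exact Complex.one_mem_slitPlane
    exact hF.contDiffAt.comp _ (contDiffAt_const.add (h2.div_const _))
  rw [e]
  have h4 : ContMDiffAt 𝓘(ℂ, ℂ) 𝓘(ℂ, C3) ω (fun w : ℂˣ => G w) w₀ :=
    h1.contMDiffAt.comp w₀ Units.contMDiff_val.contMDiffAt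
  have h5 := ContMDiffAt.comp (g := pr0) (f := fun w : ℂˣ => G w) w₀ (contMDiff_pr0 (G w₀)) h4
  exact h5

/-- The general recipe. -/
theorem onClosedCstar {F : ℂ → C3} (hF : ContDiff ℂ ω F) {C : Set C3} (hC : IsClosed C)
    {H : C3 → ℂ} (hH : Continuous H)
    (h1 : ∀ s q, pr0 q = pr0 (F s) → q ∈ C ∧ EE (H q) = EE s)
    (h2 : ∀ q ∈ C, pr0 q = pr0 (F (H q)))
    (h3 : ∀ s (n : ℤ), pr0 (F (s + n)) = pr0 (F s)) (s t : ℂ) :
    OnClosedCstar (pr0 (F s)) (pr0 (F t)) := by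
  have key : ∀ s, pr0 (F (LL (EE s))) = pr0 (F s) := by
    intro s
    obtain ⟨n, hn⟩ := EE_eq_iff.1 (EE_LL (EE s))
    rw [hn, h3]
  refine ⟨fun w : ℂˣ => pr0 (F (LL w)), contMDiff_curve hF h3, ?_, ⟨EE s, key s⟩, ⟨EE t, key t⟩⟩
  refine Topology.IsClosedEmbedding.of_continuous_injective_isClosedMap
    (contMDiff_curve hF h3).continuous ?_ ?_
  · intro w w' h
    have e1 := (h1 (LL w') (F (LL w)) h).2
    have e2 := (h1 (LL w) (F (LL w)) rfl).2
    rw [EE_LL] at e1 e2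
    exact e2.symm.trans e1
  · intro A hA
    rw [isClosed_iff]
    have e : pr0 ⁻¹' ((fun w : ℂˣ => pr0 (F (LL w))) '' A) = C ∩ (fun q => EE (H q)) ⁻¹' A := by
      ext q
      constructor
      · rintro ⟨w, hw, h⟩
        obtain ⟨hq, he⟩ := h1 (LL w) q h.symm
        refine ⟨hq, ?_⟩
        rw [EE_LL] at he
        simp only [mem_preimage]
        rw [he]
        exact hw
      · rintro ⟨hq, he⟩
        exact ⟨EE (H q), he, (key _).trans (h2 q hq).symm⟩
    rw [e]
    exact hC.inter (hA.preimage (continuous_EE.comp hH))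

theorem isClosed_int : IsClosed (range ((↑) : ℤ → ℂ)) := by
  have e : range ((↑) : ℤ → ℂ) = Complex.re ⁻¹' (range ((↑) : ℤ → ℝ)) ∩ Complex.im ⁻¹' {0} := by
    ext w
    constructor
    · rintro ⟨n, rfl⟩
      exact ⟨⟨n, by simp⟩, by simp⟩
    · rintro ⟨⟨n, hn⟩, h0⟩
      exact ⟨n, Complex.ext (by simpa using hn) (by simpa using h0.symm)⟩
  rw [e]
  exact (Real.isClosedEmbedding_intCast.isClosed_range.preimage Complex.continuous_re).inter
    (isClosed_singleton.preimage Complex.continuous_im)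

/-! ### The three families of curves -/

theorem curve1 (x y z s t : ℂ) :
    OnClosedCstar (pr0 (x + s, y, z + s * y)) (pr0 (x + t, y, z + t * y)) := by
  refine onClosedCstar (F := fun s => (x + s, y, z + s * y))
    (C := {q | q.2.1 - y ∈ range ((↑) : ℤ → ℂ) ∧
      q.2.2 - z - (q.1 - x) * y ∈ range ((↑) : ℤ → ℂ)}) (H := fun q => q.1 - x)
    (by fun_prop) ?_ (by fun_prop) ?_ ?_ ?_ s t
  · exact (isClosed_int.preimage (f := fun q : C3 => q.2.1 - y) (by fun_prop)).inter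
      (isClosed_int.preimage (f := fun q : C3 => q.2.2 - z - (q.1 - x) * y) (by fun_prop))
  · intro s q h
    obtain ⟨m, n, p, e⟩ := pr0_eq_iff.1 h
    unfold act at e
    rw [Prod.mk.injEq, Prod.mk.injEq] at e
    obtain ⟨e1, e2, e3⟩ := e
    refine ⟨⟨⟨-n, ?_⟩, ⟨m * n - p, ?_⟩⟩, EE_eq_iff.2 ⟨-m, ?_⟩⟩
    · push_cast
      linear_combination -e2
    · push_cast
      linear_combination y * e1 + m * e2 - e3
    · push_cast
      linear_combination e1
  · rintro q ⟨⟨n, hn⟩, ⟨p, hp⟩⟩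
    refine pr0_eq_iff.2 ⟨0, -n, -p, ?_⟩
    unfold act
    refine Prod.ext ?_ (Prod.ext ?_ ?_)
    · simp only; push_cast; ring
    · simp only; push_cast; linear_combination -hn
    · simp only; push_cast; linear_combination -hp
  · intro s n
    refine (pr0_eq_iff.2 ⟨n, 0, 0, ?_⟩).symm
    unfold act
    refine Prod.ext ?_ (Prod.ext ?_ ?_) <;> simp only <;> push_cast <;> ring

theorem curve2 (x y z s t : ℂ) :
    OnClosedCstar (pr0 (x, y + s, z)) (pr0 (x, y + t, z)) := by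
  refine onClosedCstar (F := fun s => (x, y + s, z))
    (C := {q | q.1 - x ∈ range ((↑) : ℤ → ℂ) ∧
      q.2.2 - z - (q.1 - x) * q.2.1 ∈ range ((↑) : ℤ → ℂ)}) (H := fun q => q.2.1 - y)
    (by fun_prop) ?_ (by fun_prop) ?_ ?_ ?_ s t
  · exact (isClosed_int.preimage (f := fun q : C3 => q.1 - x) (by fun_prop)).inter
      (isClosed_int.preimage (f := fun q : C3 => q.2.2 - z - (q.1 - x) * q.2.1) (by fun_prop))
  · intro s q h
    obtain ⟨m, n, p, e⟩ := pr0_eq_iff.1 h
    unfold act at e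
    rw [Prod.mk.injEq, Prod.mk.injEq] at e
    obtain ⟨e1, e2, e3⟩ := e
    refine ⟨⟨⟨-m, ?_⟩, ⟨-p, ?_⟩⟩, EE_eq_iff.2 ⟨-n, ?_⟩⟩
    · push_cast
      linear_combination -e1
    · push_cast
      linear_combination q.2.1 * e1 - e3
    · push_cast
      linear_combination e2
  · rintro q ⟨⟨m, hm⟩, ⟨p, hp⟩⟩
    refine pr0_eq_iff.2 ⟨-m, 0, -p, ?_⟩
    unfold act
    refine Prod.ext ?_ (Prod.ext ?_ ?_)
    · simp only; push_cast; linear_combination -hm
    · simp only; push_cast; ring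
    · simp only; push_cast; linear_combination -hp - q.2.1 * hm
  · intro s n
    refine (pr0_eq_iff.2 ⟨0, n, 0, ?_⟩).symm
    unfold act
    refine Prod.ext ?_ (Prod.ext ?_ ?_) <;> simp only <;> push_cast <;> ring

theorem curve3 (x y z s t : ℂ) :
    OnClosedCstar (pr0 (x, y, z + s)) (pr0 (x, y, z + t)) := by
  refine onClosedCstar (F := fun s => (x, y, z + s))
    (C := {q | q.1 - x ∈ range ((↑) : ℤ → ℂ) ∧ q.2.1 - y ∈ range ((↑) : ℤ → ℂ)})
    (H := fun q => q.2.2 - z - (q.1 - x) * y)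
    (by fun_prop) ?_ (by fun_prop) ?_ ?_ ?_ s t
  · exact (isClosed_int.preimage (f := fun q : C3 => q.1 - x) (by fun_prop)).inter
      (isClosed_int.preimage (f := fun q : C3 => q.2.1 - y) (by fun_prop))
  · intro s q h
    obtain ⟨m, n, p, e⟩ := pr0_eq_iff.1 h
    unfold act at e
    rw [Prod.mk.injEq, Prod.mk.injEq] at e
    obtain ⟨e1, e2, e3⟩ := e
    refine ⟨⟨⟨-m, ?_⟩, ⟨-n, ?_⟩⟩, EE_eq_iff.2 ⟨m * n - p, ?_⟩⟩
    · push_cast
      linear_combination -e1
    · push_cast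
      linear_combination -e2
    · push_cast
      linear_combination e3 - y * e1 - m * e2
  · rintro q ⟨⟨m, hm⟩, ⟨n, hn⟩⟩
    refine pr0_eq_iff.2 ⟨-m, -n, m * n, ?_⟩
    unfold act
    refine Prod.ext ?_ (Prod.ext ?_ ?_)
    · simp only; push_cast; linear_combination -hm
    · simp only; push_cast; linear_combination -hn
    · simp only; push_cast; linear_combination m * hn - y * hm
  · intro s n
    refine (pr0_eq_iff.2 ⟨0, 0, n, ?_⟩).symm
    unfold act
    refine Prod.ext ?_ (Prod.ext ?_ ?_) <;> simp only <;> push_cast <;> ring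

/-- Any two points are joined by a chain of three closed curves `ℂ*`. -/
theorem chain (P Q : XX) : ∃ x₁ x₂ : XX,
    OnClosedCstar P x₁ ∧ OnClosedCstar x₁ x₂ ∧ OnClosedCstar x₂ Q := by
  obtain ⟨⟨x, y, z⟩, rfl⟩ := pr0_surj P
  obtain ⟨⟨x', y', z'⟩, rfl⟩ := pr0_surj Q
  refine ⟨pr0 (x', y, z + (x' - x) * y), pr0 (x', y', z + (x' - x) * y), ?_, ?_, ?_⟩
  · have := curve1 x y z 0 (x' - x)
    simpa using this
  · have := curve2 x' y (z + (x' - x) * y) 0 (y' - y)
    simpa using this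
  · have := curve3 x' y' (z + (x' - x) * y) 0 (z' - (z + (x' - x) * y))
    simpa using this

end Pool.Agent.N152.HN
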