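import Pool.Agent.W711.KC.Defs

/-!
# Definitions: complete Kähler metrics, closed curves isomorphic to `ℂ*`, almost abelian groups

The complex manifolds are of dimension three: the charts take values in `ℂ³ = ℂ × ℂ × ℂ`. As
everywhere in Mathlib the tangent space at `x` is the model space `ℂ³`, through the preferred chart
at `x`. Kähler metrics are `Pool.Agent.W711.KC.IsKahlerMetric`.
-/

set_option autoImplicit false

open scoped Manifold ContDiff Topology ENNReal NNReal
open Set MeasureTheory

namespace Pool.Agent.N152.HN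

open Pool.Agent.W711.KC

section

variable {M : Type} [TopologicalSpace M] [ChartedSpace C3 M]

/-- The velocity at time `t` of the path `γ`. -/
noncomputable def velocity (γ : ℝ → M) (t : ℝ) : TangentSpace 𝓘(ℂ, C3) (γ t) :=
  (mfderiv 𝓘(ℝ, ℝ) 𝓘(ℝ, C3) γ t (1 : ℝ) : C3)

/-- The length on `[0, 1]` of the path `γ`, for the metric whose squared lengths of tangent vectors
are given by `g`. -/
noncomputable def length (g : ∀ x : M, TangentSpace 𝓘(ℂ, C3) x → ℝ) (γ : ℝ → M) : ℝ≥0∞ :=
  ∫⁻ t in Icc (0 : ℝ) 1, ENNReal.ofReal (Real.sqrt (g (γ t) (velocity γ t)))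

/-- The metric `g` is complete: every ball of the distance defined by the lengths of the `C¹` paths
is relatively compact. (By the theorem of Hopf and Rinow this is equivalent to the completeness
of the distance.) -/
def IsCompleteMetric (g : ∀ x : M, TangentSpace 𝓘(ℂ, C3) x → ℝ) : Prop :=
  ∀ (x₀ : M) (R : ℝ≥0), ∃ K : Set M, IsCompact K ∧ ∀ γ : ℝ → M,
    ContMDiff 𝓘(ℝ, ℝ) 𝓘(ℝ, C3) 1 γ → γ 0 = x₀ → length g γ ≤ R → γ 1 ∈ K

/-- `x` and `y` lie on one closed complex curve of `M` which is the image of `ℂ*` under a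
holomorphic map which is a closed topological embedding. -/
def OnClosedCstar (x y : M) : Prop :=
  ∃ f : ℂˣ → M, ContMDiff 𝓘(ℂ, ℂ) 𝓘(ℂ, C3) ω f ∧ Topology.IsClosedEmbedding f ∧ x ∈ range f ∧ y ∈ range f

end

/-- The group `G` is almost abelian: it has a commutative subgroup of finite index. -/
def AlmostAbelian (G : Type) [Group G] : Prop :=
  ∃ H : Subgroup G, H.FiniteIndex ∧ ∀ a ∈ H, ∀ b ∈ H, a * b = b * a

end Pool.Agent.N152.HN
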