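import Pool.Agent.W711.KC.Quot2
import Pool.Agent.N152.HN.Defs

/-!
# The integral Heisenberg group acting on `ℂ³`
-/

set_option autoImplicit false

open scoped Manifold ContDiff Topology
open Set Filter TopologicalSpace

namespace Pool.Agent.N152.HN

open Pool.Agent.W711.KC

/-- The map `(x, y, z) ↦ (x + m, y + n, z + m y + p)`. -/
noncomputable def act (m n p : ℤ) (q : C3) : C3 :=
  (q.1 + m, q.2.1 + n, q.2.2 + m * q.2.1 + p)

theorem act_act (m n p m' n' p' : ℤ) (q : C3) :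
    act m n p (act m' n' p' q) = act (m + m') (n + n') (p + p' + m * n') q := by
  unfold act
  refine Prod.ext ?_ (Prod.ext ?_ ?_) <;> simp only <;> push_cast <;> ring

theorem act_zero (q : C3) : act 0 0 0 q = q := by
  unfold act; simp

theorem act_inj {m n p m' n' p' : ℤ} {q : C3} (h : act m n p q = act m' n' p' q) :
    m = m' ∧ n = n' ∧ p = p' := by
  unfold act at h
  rw [Prod.mk.injEq, Prod.mk.injEq] at h
  obtain ⟨h1, h2, h3⟩ := h
  have e1 : m = m' := by exact_mod_cast add_left_cancel h1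
  have e2 : n = n' := by exact_mod_cast add_left_cancel h2
  subst e1
  exact ⟨rfl, e2, by exact_mod_cast add_left_cancel h3⟩

/-- The domain: all of `ℂ³`. -/
noncomputable abbrev TT : Opens C3 := ⊤

/-- The map as a permutation of `ℂ³`. -/
noncomputable def actP (m n p : ℤ) : Equiv.Perm TT where
  toFun q := ⟨act m n p q, trivial⟩
  invFun q := ⟨act (-m) (-n) (-p + m * n) q, trivial⟩
  left_inv q := by
    apply Subtype.ext
    simp only
    rw [act_act]
    convert act_zero (q : C3) using 2 <;> ring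
  right_inv q := by
    apply Subtype.ext
    simp only
    rw [act_act]
    convert act_zero (q : C3) using 2 <;> ring

theorem actP_coe (m n p : ℤ) (q : TT) : (actP m n p q : C3) = act m n p q := rfl

theorem actP_mul (m n p m' n' p' : ℤ) :
    actP m n p * actP m' n' p' = actP (m + m') (n + n') (p + p' + m * n') := by
  apply Equiv.ext
  intro q
  apply Subtype.ext
  exact act_act m n p m' n' p' q

theorem actP_one : actP 0 0 0 = 1 := by
  apply Equiv.ext
  intro q
  apply Subtype.ext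
  exact act_zero q

theorem actP_inv (m n p : ℤ) : (actP m n p)⁻¹ = actP (-m) (-n) (-p + m * n) := by
  rw [inv_eq_iff_mul_eq_one, actP_mul, ← actP_one]
  congr 1 <;> ring

theorem actP_inj {m n p m' n' p' : ℤ} (h : actP m n p = actP m' n' p') :
    m = m' ∧ n = n' ∧ p = p' := by
  have := congrArg (fun σ : Equiv.Perm TT => ((σ ⟨0, trivial⟩ : TT) : C3)) h
  exact act_inj this

/-- The group `H₃(ℤ)` of these permutations. -/
noncomputable def GG : Subgroup (Equiv.Perm TT) where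
  carrier := {σ | ∃ m n p : ℤ, σ = actP m n p}
  mul_mem' := by
    rintro _ _ ⟨m, n, p, rfl⟩ ⟨m', n', p', rfl⟩
    exact ⟨_, _, _, actP_mul m n p m' n' p'⟩
  one_mem' := ⟨0, 0, 0, actP_one.symm⟩
  inv_mem' := by
    rintro _ ⟨m, n, p, rfl⟩
    exact ⟨_, _, _, actP_inv m n p⟩

theorem mem_GG {σ : Equiv.Perm TT} : σ ∈ GG ↔ ∃ m n p : ℤ, σ = actP m n p := Iff.rfl

theorem ex_actP (m n p : ℤ) (q : C3) : ex (actP m n p : TT → TT) q = act m n p q :=
  ex_apply (actP m n p : TT → TT) ⟨q, trivial⟩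

theorem ex_actP_eq (m n p : ℤ) : ex (actP m n p : TT → TT) = act m n p :=
  funext (ex_actP m n p)

theorem contDiff_act (m n p : ℤ) : ContDiff ℂ ω (act m n p) := by
  unfold act
  fun_prop

theorem free_GG : ∀ γ ∈ GG, ∀ x, γ x = x → γ = 1 := by
  rintro _ ⟨m, n, p, rfl⟩ q h
  have h1 : act m n p (q : C3) = act 0 0 0 q := by
    rw [act_zero]
    exact congrArg Subtype.val h
  obtain ⟨rfl, rfl, rfl⟩ := act_inj h1
  exact actP_one

theorem int_bound {a b : ℂ} {n : ℤ} {R : ℝ} (ha : ‖a‖ ≤ R) (hb : ‖b‖ ≤ R) (h : a + n = b) :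
    |(n : ℝ)| ≤ 2 * R := by
  have h1 : (n : ℂ) = b - a := by rw [← h]; ring
  have h2 : ‖(n : ℂ)‖ ≤ 2 * R := by
    rw [h1]
    linarith [norm_sub_le b a]
  rwa [Complex.norm_intCast] at h2

theorem finite_box (R : ℝ) : {n : ℤ | |(n : ℝ)| ≤ R}.Finite := by
  apply (Set.finite_Icc (-⌈R⌉) ⌈R⌉).subset
  intro n hn
  simp only [mem_ofPred_eq] at hn
  rw [abs_le] at hn
  constructor
  · have : (-(⌈R⌉ : ℤ) : ℝ) ≤ n := by linarith [Int.le_ceil R]
    exact_mod_cast this
  · have : (n : ℝ) ≤ (⌈R⌉ : ℤ) := by linarith [Int.le_ceil R]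
    exact_mod_cast this

theorem pd_GG (K L : Set TT) (hK : IsCompact K) (hL : IsCompact L) :
    Set.Finite {γ : GG | ((fun x => (γ : Equiv.Perm TT) x) '' K ∩ L).Nonempty} := by
  obtain ⟨R1, hR1⟩ := (hK.image continuous_subtype_val).isBounded.exists_norm_le
  obtain ⟨R2, hR2⟩ := (hL.image continuous_subtype_val).isBounded.exists_norm_le
  set R := max R1 R2 with hR
  have hf : Set.Finite ({n : ℤ | |(n : ℝ)| ≤ 2 * R} ×ˢ ({n : ℤ | |(n : ℝ)| ≤ 2 * R} ×ˢ
      {n : ℤ | |(n : ℝ)| ≤ 2 * (R + 2 * R * R)})) :=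
    (finite_box _).prod ((finite_box _).prod (finite_box _))
  have hsub : {γ : GG | ((fun x => (γ : Equiv.Perm TT) x) '' K ∩ L).Nonempty} ⊆
      (fun t : ℤ × ℤ × ℤ => (⟨actP t.1 t.2.1 t.2.2, _, _, _, rfl⟩ : GG)) ''
        ({n : ℤ | |(n : ℝ)| ≤ 2 * R} ×ˢ ({n : ℤ | |(n : ℝ)| ≤ 2 * R} ×ˢ
          {n : ℤ | |(n : ℝ)| ≤ 2 * (R + 2 * R * R)})) := by
    rintro ⟨_, m, n, p, rfl⟩ ⟨_, ⟨a, ha, rfl⟩, hb⟩
    simp only at hb
    have na : ‖(a : C3)‖ ≤ R := (hR1 _ ⟨a, ha, rfl⟩).trans (le_max_left _ _)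
    have nb : ‖act m n p (a : C3)‖ ≤ R := (hR2 _ ⟨_, hb, rfl⟩).trans (le_max_right _ _)
    have a1 : ‖(a : C3).1‖ ≤ R := (norm_fst_le _).trans na
    have a2 : ‖(a : C3).2.1‖ ≤ R := (norm_fst_le _).trans ((norm_snd_le _).trans na)
    have a3 : ‖(a : C3).2.2‖ ≤ R := (norm_snd_le _).trans ((norm_snd_le _).trans na)
    have b1 : ‖(act m n p (a : C3)).1‖ ≤ R := (norm_fst_le _).trans nb
    have b2 : ‖(act m n p (a : C3)).2.1‖ ≤ R := (norm_fst_le _).trans ((norm_snd_le _).trans nb)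
    have b3 : ‖(act m n p (a : C3)).2.2‖ ≤ R := (norm_snd_le _).trans ((norm_snd_le _).trans nb)
    have hm : |(m : ℝ)| ≤ 2 * R := int_bound a1 b1 rfl
    have hn : |(n : ℝ)| ≤ 2 * R := int_bound a2 b2 rfl
    have hR0 : 0 ≤ R := (norm_nonneg _).trans na
    have hq : ‖(a : C3).2.2 + m * (a : C3).2.1‖ ≤ R + 2 * R * R := by
      refine (norm_add_le _ _).trans ?_
      rw [norm_mul, Complex.norm_intCast]
      have : |(m : ℝ)| * ‖(a : C3).2.1‖ ≤ 2 * R * R := by gcongr
      linarith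
    have hp : |(p : ℝ)| ≤ 2 * (R + 2 * R * R) := by
      refine int_bound hq (b3.trans ?_) rfl
      nlinarith
    exact ⟨(m, n, p), ⟨hm, hn, hp⟩, rfl⟩
  exact (hf.image _).subset hsub

instance : HolGroup GG where
  hol := by
    rintro _ ⟨m, n, p, rfl⟩
    rw [ex_actP_eq]
    exact (contDiff_act m n p).contDiffOn
  free := free_GG
  pd := pd_GG

/-- The manifold `X = H₃(ℤ) \ H₃(ℂ)`. -/
abbrev XX : Type := QQ GG

/-- The projection `ℂ³ → X`. -/
noncomputable def pr0 (q : C3) : XX := pr GG ⟨q, trivial⟩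

theorem pr0_surj : Function.Surjective pr0 := by
  intro q
  obtain ⟨⟨a, ha⟩, rfl⟩ := pr_surj GG q
  exact ⟨a, rfl⟩

theorem pr0_eq_iff {a b : C3} : pr0 a = pr0 b ↔ ∃ m n p : ℤ, act m n p a = b := by
  unfold pr0
  rw [pr_eq_iff]
  constructor
  · rintro ⟨_, ⟨m, n, p, rfl⟩, h⟩
    exact ⟨m, n, p, congrArg Subtype.val h⟩
  · rintro ⟨m, n, p, h⟩
    exact ⟨_, ⟨m, n, p, rfl⟩, Subtype.ext h⟩

theorem continuous_pr0 : Continuous pr0 :=
  (continuous_pr GG).comp (continuous_id.subtype_mk _)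

instance : SecondCountableTopology XX := by
  have : SecondCountableTopology TT := inferInstance
  exact ContinuousConstSMul.secondCountableTopology

instance : ConnectedSpace XX := by
  have : ConnectedSpace C3 := inferInstance
  exact pr0_surj.connectedSpace continuous_pr0

instance : T2Space XX := inferInstance

end Pool.Agent.N152.HN
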