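import Pool.Agent.N152.HN.Pot

/-!
# The complete Kähler metric on `X`
-/

set_option autoImplicit false

open scoped Manifold ContDiff Topology ENNReal NNReal
open Set Filter TopologicalSpace MeasureTheory

namespace Pool.Agent.N152.HN

open Pool.Agent.W711.KC

/-- the preferred lift of a point of `X`. -/
noncomputable def lf (q : XX) : C3 := chartAt C3 q q

theorem pr0_chart {q₀ q : XX} (hq : q ∈ (chartAt C3 q₀).source) : pr0 (chartAt C3 q₀ q) = q :=
  pr_chart (chart_mem_atlas C3 q₀) hq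

theorem pr0_lf (q : XX) : pr0 (lf q) = q := pr0_chart (mem_chart_source C3 q)

theorem symm_eq {q₀ : XX} {y : C3} (hy : y ∈ (chartAt C3 q₀).target) :
    (chartAt C3 q₀).symm y = pr0 y := atlas_symm (chart_mem_atlas C3 q₀) hy

/-- the function on `X` defined by an invariant function on `ℂ³`. -/
noncomputable def low (h : C3 → ℝ) (q : XX) : ℝ := h (lf q)

theorem low_pr0 {h : C3 → ℝ} (hi : ∀ m n p q, h (act m n p q) = h q) (a : C3) :
    low h (pr0 a) = h a := by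
  obtain ⟨m, n, p, e⟩ := pr0_eq_iff.1 (pr0_lf (pr0 a))
  unfold low
  have h1 := hi m n p (lf (pr0 a))
  rw [e] at h1
  exact h1.symm

theorem low_symm {h : C3 → ℝ} (hi : ∀ m n p q, h (act m n p q) = h q) (q : XX) :
    (low h ∘ (chartAt C3 q).symm) =ᶠ[𝓝 (chartAt C3 q q)] h := by
  filter_upwards [(chartAt C3 q).open_target.mem_nhds (mem_chart_target C3 q)] with y hy
  rw [Function.comp_apply, symm_eq hy, low_pr0 hi]

/-- The metric on `X`. -/
noncomputable def gX (q : XX) (w : TangentSpace 𝓘(ℂ, C3) q) : ℝ := gg (lf q) w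

theorem isKahler : IsKahlerMetric (M := XX) gX := by
  refine ⟨fun q w hw => gg_pos _ hw, fun q₀ => ⟨univ, isOpen_univ, mem_univ _, low Pot,
    fun q _ => ⟨?_, fun w => ?_⟩⟩⟩
  · exact contDiff_Pot.contDiffAt.congr_of_eventuallyEq (low_symm Pot_act q)
  · exact ((leviForm_congr (low_symm Pot_act q) w).trans (leviForm_Pot _ _)).symm

/-! ### Completeness -/

theorem path_deriv {γ : ℝ → XX} (hγ : ContMDiff 𝓘(ℝ, ℝ) 𝓘(ℝ, C3) 1 γ) (t : ℝ) :
    HasDerivAt (fun s => chartAt C3 (γ t) (γ s)) (velocity γ t) t ∧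
      ContDiffAt ℝ 1 (fun s => chartAt C3 (γ t) (γ s)) t := by
  have h1 := (contMDiffAt_iff.1 (hγ t)).2
  have h2 : ContDiffAt ℝ 1 (fun s => chartAt C3 (γ t) (γ s)) t := by
    rw [← contDiffWithinAt_univ]
    simp [Function.comp_def] at h1
    exact h1
  refine ⟨?_, h2⟩
  have h3 : MDifferentiableAt 𝓘(ℝ, ℝ) 𝓘(ℝ, C3) γ t := (hγ t).mdifferentiableAt (by simp)
  have h4 : velocity γ t = deriv (fun s => chartAt C3 (γ t) (γ s)) t := by
    unfold velocity
    rw [h3.mfderiv]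
    simp only [modelWithCornersSelf_coe, range_id, fderivWithin_univ]
    rfl
  rw [h4]
  exact (h2.differentiableAt (by simp)).hasDerivAt

theorem low_path {γ : ℝ → XX} (hγ : ContMDiff 𝓘(ℝ, ℝ) 𝓘(ℝ, C3) 1 γ) {h : C3 → ℝ}
    (hi : ∀ m n p q, h (act m n p q) = h q) (hh : ContDiff ℝ 1 h) (t : ℝ) :
    ContDiffAt ℝ 1 (fun s => low h (γ s)) t ∧
      deriv (fun s => low h (γ s)) t = fderiv ℝ h (lf (γ t)) (velocity γ t) := by
  obtain ⟨h1, h2⟩ := path_deriv hγ t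
  have h3 : (fun s => low h (γ s)) =ᶠ[𝓝 t] fun s => h (chartAt C3 (γ t) (γ s)) := by
    have : ∀ᶠ s in 𝓝 t, γ s ∈ (chartAt C3 (γ t)).source :=
      (hγ t).continuousAt.eventually_mem
        ((chartAt C3 (γ t)).open_source.mem_nhds (mem_chart_source C3 _))
    filter_upwards [this] with s hs
    conv_lhs => rw [← pr0_chart hs]
    exact low_pr0 hi _
  refine ⟨(hh.contDiffAt.comp t h2).congr_of_eventuallyEq h3, ?_⟩
  rw [h3.deriv_eq]
  have h4 : HasFDerivAt h (fderiv ℝ h (lf (γ t))) (chartAt C3 (γ t) (γ t)) :=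
    (hh.differentiable (by simp) _).hasFDerivAt
  exact (h4.comp_hasDerivAt t h1).deriv

theorem low_le_length {γ : ℝ → XX} (hγ : ContMDiff 𝓘(ℝ, ℝ) 𝓘(ℝ, C3) 1 γ) {h : C3 → ℝ}
    (hi : ∀ m n p q, h (act m n p q) = h q) (hh : ContDiff ℝ 1 h)
    (hb : ∀ p u, fderiv ℝ h p u ^ 2 ≤ gg p u) :
    ‖low h (γ 1) - low h (γ 0)‖ₑ ≤ length gX γ := by
  refine (enorm_sub_le_lintegral_deriv_of_contDiffOn_Icc (f := fun s => low h (γ s))
    (fun t _ => ((low_path hγ hi hh t).1).contDiffWithinAt) zero_le_one).trans ?_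
  unfold length
  apply lintegral_mono
  intro t
  simp only
  rw [(low_path hγ hi hh t).2, Real.enorm_eq_ofReal_abs]
  apply ENNReal.ofReal_le_ofReal
  exact Real.abs_le_sqrt (hb _ _)

theorem low_bound {γ : ℝ → XX} (hγ : ContMDiff 𝓘(ℝ, ℝ) 𝓘(ℝ, C3) 1 γ) {h : C3 → ℝ}
    (hi : ∀ m n p q, h (act m n p q) = h q) (hh : ContDiff ℝ 1 h)
    (hb : ∀ p u, fderiv ℝ h p u ^ 2 ≤ gg p u) {R : ℝ≥0} (hR : length gX γ ≤ R) :
    |low h (γ 1)| ≤ |low h (γ 0)| + R := by
  have h1 := (low_le_length hγ hi hh hb).trans hR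
  rw [Real.enorm_eq_ofReal_abs] at h1
  have h2 : |low h (γ 1) - low h (γ 0)| ≤ R := by
    rw [← ENNReal.ofReal_coe_nnreal] at h1
    exact (ENNReal.ofReal_le_ofReal_iff R.2).1 h1
  calc |low h (γ 1)| = |low h (γ 0) + (low h (γ 1) - low h (γ 0))| := by ring_nf
    _ ≤ _ := (abs_add_le _ _).trans (by linarith)

/-- the three functions. -/
noncomputable def F1 (p : C3) : ℝ := L1 p
noncomputable def F2 (p : C3) : ℝ := L2 p
noncomputable def F3 (p : C3) : ℝ := Real.arsinh (vv p)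

theorem F1_act (m n p : ℤ) (q : C3) : F1 (act m n p q) = F1 q := by
  unfold F1 act; simp [L1_apply]
theorem F2_act (m n p : ℤ) (q : C3) : F2 (act m n p q) = F2 q := by
  unfold F2 act; simp [L2_apply]
theorem F3_act (m n p : ℤ) (q : C3) : F3 (act m n p q) = F3 q := by
  unfold F3; rw [vv_act]

theorem hb1 (p u : C3) : fderiv ℝ F1 p u ^ 2 ≤ gg p u := by
  have h : fderiv ℝ F1 p = L1 := L1.hasFDerivAt.fderiv
  rw [h]
  refine le_trans ?_ (gg_ge p u)
  have h0 : 0 ≤ (dv p u ^ 2 + dv p (Complex.I • u) ^ 2) / (1 + vv p ^ 2) := by positivity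
  rw [Complex.normSq_apply, Complex.normSq_apply, L1_apply]
  nlinarith [sq_nonneg u.1.re, sq_nonneg u.1.im, sq_nonneg u.2.1.re, sq_nonneg u.2.1.im]

theorem hb2 (p u : C3) : fderiv ℝ F2 p u ^ 2 ≤ gg p u := by
  have h : fderiv ℝ F2 p = L2 := L2.hasFDerivAt.fderiv
  rw [h]
  refine le_trans ?_ (gg_ge p u)
  have h0 : 0 ≤ (dv p u ^ 2 + dv p (Complex.I • u) ^ 2) / (1 + vv p ^ 2) := by positivity
  rw [Complex.normSq_apply, Complex.normSq_apply, L2_apply]
  nlinarith [sq_nonneg u.1.re, sq_nonneg u.1.im, sq_nonneg u.2.1.re, sq_nonneg u.2.1.im]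

theorem hb3 (p u : C3) : fderiv ℝ F3 p u ^ 2 ≤ gg p u := by
  have h1 : HasFDerivAt F3 ((√(1 + vv p ^ 2))⁻¹ • (L3 - (K1 p • L2 + L2 p • K1))) p :=
    (Real.hasDerivAt_arsinh (vv p)).comp_hasFDerivAt p (hasFDerivAt_vv p)
  rw [h1.fderiv, _root_.smul_apply, dv_eq, smul_eq_mul, mul_pow, inv_pow,
    Real.sq_sqrt (by positivity)]
  refine le_trans ?_ (gg_ge p u)
  have h0 : 0 < 1 + vv p ^ 2 := by positivity
  have h2 : (1 + vv p ^ 2)⁻¹ * dv p u ^ 2 ≤
      (dv p u ^ 2 + dv p (Complex.I • u) ^ 2) / (1 + vv p ^ 2) := by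
    rw [inv_mul_eq_div]
    gcongr
    nlinarith [sq_nonneg (dv p (Complex.I • u))]
  have := Complex.normSq_nonneg u.1
  have := Complex.normSq_nonneg u.2.1
  linarith

theorem exists_int_reduce (x : ℂ) : ∃ m : ℤ, |(x + m).re| ≤ 1 := by
  refine ⟨-⌊x.re⌋, ?_⟩
  have h1 := Int.floor_le x.re
  have h2 := Int.lt_floor_add_one x.re
  simp only [Int.cast_neg, Complex.add_re, Complex.neg_re, Complex.intCast_re]
  rw [abs_le]
  constructor <;> linarith

/-- every point of `X` has a lift with bounded real parts. -/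
theorem exists_reduce (a : C3) : ∃ b : C3, pr0 b = pr0 a ∧ |b.1.re| ≤ 1 ∧ |b.2.1.re| ≤ 1 ∧
    |b.2.2.re| ≤ 1 := by
  obtain ⟨m, hm⟩ := exists_int_reduce a.1
  obtain ⟨n, hn⟩ := exists_int_reduce a.2.1
  obtain ⟨p, hp⟩ := exists_int_reduce (a.2.2 + m * a.2.1)
  exact ⟨act m n p a, (pr0_eq_iff.2 ⟨m, n, p, rfl⟩).symm, hm, hn, hp⟩

theorem isComplete : IsCompleteMetric (M := XX) gX := by
  intro x₀ R
  set R1 := |low F1 x₀| + R with hR1
  set R2 := |low F2 x₀| + R with hR2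
  set R3 := |low F3 x₀| + R with hR3
  set B := 1 + R1 + R2 + (R2 + Real.sinh R3) with hB
  refine ⟨pr0 '' Metric.closedBall 0 (2 * B), (isCompact_closedBall _ _).image continuous_pr0,
    fun γ hγ h0 hl => ?_⟩
  have b1 := low_bound hγ F1_act (by exact L1.contDiff) hb1 hl
  have b2 := low_bound hγ F2_act (by exact L2.contDiff) hb2 hl
  have c3 : ContDiff ℝ 1 F3 :=
    (Real.contDiff_arsinh.of_le le_top).comp (contDiff_vv.of_le (by norm_cast))
  have b3 := low_bound hγ F3_act c3 hb3 hl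
  rw [h0] at b1 b2 b3
  obtain ⟨a, ha⟩ := pr0_surj (γ 1)
  obtain ⟨b, hb, r1, r2, r3⟩ := exists_reduce a
  rw [ha] at hb
  rw [← hb, low_pr0 F1_act] at b1
  rw [← hb, low_pr0 F2_act] at b2
  rw [← hb, low_pr0 F3_act] at b3
  rw [← hR1] at b1
  rw [← hR2] at b2
  rw [← hR3] at b3
  have i1 : |b.1.im| ≤ R1 := b1
  have i2 : |b.2.1.im| ≤ R2 := b2
  have hv : |vv b| ≤ Real.sinh R3 := by
    have h5 : Real.sinh |F3 b| ≤ Real.sinh R3 := Real.sinh_le_sinh.2 b3
    rw [← Real.abs_sinh] at h5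
    unfold F3 at h5
    rwa [Real.sinh_arsinh] at h5
  have hR10 : 0 ≤ R1 := (abs_nonneg _).trans i1
  have hR20 : 0 ≤ R2 := (abs_nonneg _).trans i2
  have hR30 : 0 ≤ Real.sinh R3 := (abs_nonneg _).trans hv
  have i3 : |b.2.2.im| ≤ R2 + Real.sinh R3 := by
    have e : b.2.2.im = vv b + b.1.re * b.2.1.im := by
      unfold vv
      rw [L3_apply, K1_apply, L2_apply]
      ring
    rw [e]
    refine (abs_add_le _ _).trans ?_
    rw [abs_mul]
    have : |b.1.re| * |b.2.1.im| ≤ 1 * R2 := by gcongr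
    linarith
  refine ⟨b, ?_, hb⟩
  rw [mem_closedBall_zero_iff]
  have n1 : ‖b.1‖ ≤ 2 * B := (Complex.norm_le_abs_re_add_abs_im _).trans (by rw [hB]; linarith)
  have n2 : ‖b.2.1‖ ≤ 2 * B := (Complex.norm_le_abs_re_add_abs_im _).trans (by rw [hB]; linarith)
  have n3 : ‖b.2.2‖ ≤ 2 * B := (Complex.norm_le_abs_re_add_abs_im _).trans (by rw [hB]; linarith)
  exact max_le n1 (max_le n2 n3)

end Pool.Agent.N152.HN
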