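import Pool.Agent.N152.HN.Grp

/-!
# The fundamental group of `X` is not almost abelian
-/

set_option autoImplicit false

open scoped Manifold ContDiff Topology
open Set Filter TopologicalSpace

namespace Pool.Agent.N152.HN

open Pool.Agent.W711.KC

theorem cover : IsQuotientCoveringMap (pr GG) GG :=
  isQuotientCoveringMap_quotientMk_of_properlyDiscontinuousSMul

instance : PathConnectedSpace TT := by
  have h : Function.Surjective (fun q : C3 => (⟨q, trivial⟩ : TT)) := fun ⟨q, _⟩ => ⟨q, rfl⟩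
  exact h.pathConnectedSpace (continuous_id.subtype_mk _)

theorem pow_x (k : ℕ) : (actP 1 0 0) ^ k = actP k 0 0 := by
  induction k with
  | zero => simpa using actP_one.symm
  | succ k ih =>
    rw [pow_succ, ih, actP_mul]
    congr 1

theorem pow_y (k : ℕ) : (actP 0 1 0) ^ k = actP 0 k 0 := by
  induction k with
  | zero => simpa using actP_one.symm
  | succ k ih =>
    rw [pow_succ, ih, actP_mul]
    congr 1

theorem not_comm {k l : ℕ} (hk : 0 < k) (hl : 0 < l) :
    (actP 1 0 0) ^ k * (actP 0 1 0) ^ l ≠ (actP 0 1 0) ^ l * (actP 1 0 0) ^ k := by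
  intro h
  rw [pow_x, pow_y, actP_mul, actP_mul] at h
  obtain ⟨-, -, h⟩ := actP_inj h
  have h1 : (k : ℤ) * l = 0 := by simpa using h
  have h2 : (0 : ℤ) < k := by exact_mod_cast hk
  have h3 : (0 : ℤ) < l := by exact_mod_cast hl
  nlinarith [mul_pos h2 h3]

theorem not_almostAbelian (x : XX) : ¬ AlmostAbelian (FundamentalGroup XX x) := by
  rintro ⟨H, hfin, hcomm⟩
  obtain ⟨e, rfl⟩ := pr_surj GG x
  set φ := cover.fundamentalGroupToMulOpposite (x := pr GG e) ⟨e, rfl⟩ with hφ
  have hs : Function.Surjective φ := cover.fundamentalGroupToMulOpposite_surjective _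
  obtain ⟨A, hA⟩ := hs (MulOpposite.op ⟨actP 1 0 0, _, _, _, rfl⟩)
  obtain ⟨B, hB⟩ := hs (MulOpposite.op ⟨actP 0 1 0, _, _, _, rfl⟩)
  obtain ⟨k, hk, -, hAk⟩ := Subgroup.exists_pow_mem_of_index_ne_zero hfin.index_ne_zero A
  obtain ⟨l, hl, -, hBl⟩ := Subgroup.exists_pow_mem_of_index_ne_zero hfin.index_ne_zero B
  have h1 := congrArg φ (hcomm _ hAk _ hBl)
  rw [map_mul, map_mul, map_pow, map_pow, hA, hB] at h1
  have h2 := congrArg (fun t : GGᵐᵒᵖ => ((MulOpposite.unop t : GG) : Equiv.Perm TT)) h1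
  simp only [MulOpposite.unop_mul, MulOpposite.unop_pow, MulOpposite.unop_op, Subgroup.coe_mul,
    Subgroup.coe_pow] at h2
  exact not_comm hk hl h2.symm

end Pool.Agent.N152.HN
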