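import Pool.Agent.W711.KC.Levi
import Pool.Agent.N152.HN.Grp

/-!
# The invariant Kähler potential on `ℂ³` and its Levi form
-/

set_option autoImplicit false

open scoped Manifold ContDiff Topology
open Set Filter TopologicalSpace

namespace Pool.Agent.N152.HN

open Pool.Agent.W711.KC

/-- the real part of the first coordinate. -/
noncomputable def K1 : C3 →L[ℝ] ℝ := Complex.reCLM.comp (ContinuousLinearMap.fst ℝ ℂ (ℂ × ℂ))

theorem K1_apply (p : C3) : K1 p = p.1.re := rfl

/-- The invariant function `v = Im z - Re x · Im y`. -/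
noncomputable def vv (p : C3) : ℝ := L3 p - K1 p * L2 p

/-- its derivative. -/
noncomputable def dv (p u : C3) : ℝ := L3 u - (K1 p * L2 u + K1 u * L2 p)

/-- `χ(s) = s arctan s - log(1 + s²) / 2`. -/
noncomputable def chi (s : ℝ) : ℝ := s * Real.arctan s - (1 / 2) * Real.log (1 + s ^ 2)

theorem hasDerivAt_chi (s : ℝ) : HasDerivAt chi (Real.arctan s) s := by
  have h0 : (1 + s ^ 2 : ℝ) ≠ 0 := by positivity
  have h1 : HasDerivAt (fun s : ℝ => s * Real.arctan s)
      (1 * Real.arctan s + s * (1 / (1 + s ^ 2))) s :=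
    (hasDerivAt_id s).mul (Real.hasDerivAt_arctan s)
  have h2 : HasDerivAt (fun s : ℝ => 1 + s ^ 2) (2 * s) s := by
    simpa using (hasDerivAt_pow 2 s).const_add 1
  have h3 := (h1.sub ((h2.log h0).const_mul (1 / 2)))
  refine h3.congr_deriv ?_
  field_simp
  ring

theorem contDiff_chi : ContDiff ℝ ∞ chi := by
  unfold chi
  refine (contDiff_id.mul (Real.contDiff_arctan.of_le le_top)).sub (contDiff_const.mul ?_)
  refine ContDiff.log (contDiff_const.add (contDiff_id.pow 2)) (fun s => ?_)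
  have : 0 < 1 + s ^ 2 := by positivity
  exact this.ne'

/-- The potential `2 (Im x)² + 2 (Im y)² + χ(v)`. -/
noncomputable def Pot (p : C3) : ℝ := 2 * (L1 p ^ 2 + L2 p ^ 2) + chi (vv p)

theorem contDiff_vv : ContDiff ℝ ∞ vv :=
  L3.contDiff.sub (K1.contDiff.mul L2.contDiff)

theorem contDiff_Pot : ContDiff ℝ ∞ Pot := by
  unfold Pot
  exact (contDiff_const.mul ((L1.contDiff.pow 2).add (L2.contDiff.pow 2))).add
    (contDiff_chi.comp contDiff_vv)

theorem hasFDerivAt_vv (p : C3) :
    HasFDerivAt vv (L3 - (K1 p • L2 + L2 p • K1)) p :=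
  L3.hasFDerivAt.sub (K1.hasFDerivAt.mul L2.hasFDerivAt)

theorem dv_eq (p u : C3) : (L3 - (K1 p • L2 + L2 p • K1)) u = dv p u := by
  unfold dv
  simp
  ring

/-- first directional derivative of the potential. -/
theorem fderiv_Pot (p u : C3) : fderiv ℝ Pot p u =
    4 * (L1 p * L1 u + L2 p * L2 u) + Real.arctan (vv p) * dv p u := by
  have h1 : HasFDerivAt (fun p => L1 p) L1 p := L1.hasFDerivAt
  have h2 : HasFDerivAt (fun p => L2 p) L2 p := L2.hasFDerivAt
  have h4 : HasFDerivAt Pot _ p :=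
    (((h1.pow 2).add (h2.pow 2)).const_mul 2).add
      ((hasDerivAt_chi (vv p)).comp_hasFDerivAt p (hasFDerivAt_vv p))
  rw [h4.fderiv]
  rw [← dv_eq]
  simp
  ring

/-- second directional derivative of the potential. -/
theorem fderiv_fderiv_Pot (p u : C3) :
    fderiv ℝ (fun w => fderiv ℝ Pot w u) p u =
      4 * (L1 u ^ 2 + L2 u ^ 2) + dv p u ^ 2 / (1 + vv p ^ 2) -
        Real.arctan (vv p) * (2 * (K1 u * L2 u)) := by
  have e : (fun w => fderiv ℝ Pot w u) = fun p =>
      4 * (L1 p * L1 u + L2 p * L2 u) + Real.arctan (vv p) * dv p u := funext fun w => fderiv_Pot w u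
  rw [e]
  have h1 : HasFDerivAt (fun p => L1 p) L1 p := L1.hasFDerivAt
  have h2 : HasFDerivAt (fun p => L2 p) L2 p := L2.hasFDerivAt
  have h3 : HasFDerivAt (fun p => K1 p) K1 p := K1.hasFDerivAt
  have h5 : HasFDerivAt (fun p => dv p u) (-(L2 u • K1 + K1 u • L2)) p := by
    have := ((h3.mul_const (L2 u)).add (h2.const_mul (K1 u))).const_sub (L3 u)
    exact this
  have h6 : HasFDerivAt (fun p => Real.arctan (vv p)) ((1 / (1 + vv p ^ 2)) •
      (L3 - (K1 p • L2 + L2 p • K1))) p :=
    (Real.hasDerivAt_arctan (vv p)).comp_hasFDerivAt p (hasFDerivAt_vv p)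
  have h4 : HasFDerivAt (fun p => 4 * (L1 p * L1 u + L2 p * L2 u) +
      Real.arctan (vv p) * dv p u) _ p :=
    (((h1.mul_const (L1 u)).add (h2.mul_const (L2 u))).const_mul 4).add (h6.mul h5)
  rw [h4.fderiv]
  simp only [_root_.add_apply, _root_.smul_apply, dv_eq]
  simp
  field_simp
  ring

/-- The metric. -/
noncomputable def gg (p u : C3) : ℝ :=
  4 * (Complex.normSq u.1 + Complex.normSq u.2.1) +
    (dv p u ^ 2 + dv p (Complex.I • u) ^ 2) / (1 + vv p ^ 2) +
      Real.arctan (vv p) * (2 * (u.1.im * u.2.1.re - u.1.re * u.2.1.im))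

theorem leviForm_Pot (p u : C3) : leviForm Pot p u = gg p u := by
  unfold leviForm
  rw [fderiv_fderiv_Pot, fderiv_fderiv_Pot]
  unfold gg
  simp only [L1_apply, L2_apply, K1_apply, Complex.normSq_apply, Prod.smul_fst, Prod.smul_snd,
    smul_eq_mul, Complex.mul_im, Complex.mul_re, Complex.I_re, Complex.I_im, zero_mul, one_mul,
    zero_add, zero_sub]
  ring

theorem dv_I (p u : C3) : dv p (Complex.I • u) =
    u.2.2.re - (K1 p * u.2.1.re - u.1.im * L2 p) := by
  unfold dv
  simp only [L3_apply, L2_apply, K1_apply, Prod.smul_fst, Prod.smul_snd, smul_eq_mul,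
    Complex.mul_im, Complex.mul_re, Complex.I_re, Complex.I_im, zero_mul, one_mul, zero_add,
    zero_sub]
  ring

theorem arctan_abs (s : ℝ) : |Real.arctan s| ≤ 2 := by
  rw [abs_le]
  constructor
  · linarith [Real.neg_pi_div_two_lt_arctan s, Real.pi_lt_four]
  · linarith [Real.arctan_lt_pi_div_two s, Real.pi_lt_four]

/-- **Lower bound for the metric.** -/
theorem gg_ge (p u : C3) : 2 * (Complex.normSq u.1 + Complex.normSq u.2.1) +
    (dv p u ^ 2 + dv p (Complex.I • u) ^ 2) / (1 + vv p ^ 2) ≤ gg p u := by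
  have h1 : |Real.arctan (vv p) * (2 * (u.1.im * u.2.1.re - u.1.re * u.2.1.im))| ≤
      2 * (Complex.normSq u.1 + Complex.normSq u.2.1) := by
    rw [abs_mul]
    have h2 : |2 * (u.1.im * u.2.1.re - u.1.re * u.2.1.im)| ≤
        Complex.normSq u.1 + Complex.normSq u.2.1 := by
      rw [Complex.normSq_apply, Complex.normSq_apply, abs_le]
      constructor <;> nlinarith [sq_nonneg (u.1.im - u.2.1.re), sq_nonneg (u.1.im + u.2.1.re),
        sq_nonneg (u.1.re - u.2.1.im), sq_nonneg (u.1.re + u.2.1.im)]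
    exact mul_le_mul (arctan_abs _) h2 (abs_nonneg _) (by norm_num)
  have h3 := (abs_le.1 h1).1
  unfold gg
  linarith

theorem gg_pos (p : C3) {u : C3} (hu : u ≠ 0) : 0 < gg p u := by
  refine lt_of_lt_of_le ?_ (gg_ge p u)
  have h0 : 0 < 1 + vv p ^ 2 := by positivity
  have hs : 0 ≤ (dv p u ^ 2 + dv p (Complex.I • u) ^ 2) / (1 + vv p ^ 2) := by positivity
  have n1 := Complex.normSq_nonneg u.1
  have n2 := Complex.normSq_nonneg u.2.1
  by_cases h1 : u.1 = 0
  · by_cases h2 : u.2.1 = 0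
    · have h3 : u.2.2 ≠ 0 := fun h3 => hu (Prod.ext h1 (Prod.ext h2 h3))
      have e1 : dv p u = u.2.2.im := by
        unfold dv
        simp [L3_apply, L2_apply, K1_apply, h1, h2]
      have e2 : dv p (Complex.I • u) = u.2.2.re := by
        rw [dv_I]
        simp [h1, h2]
      rw [e1, e2]
      have h4 : 0 < Complex.normSq u.2.2 := Complex.normSq_pos.2 h3
      rw [Complex.normSq_apply] at h4
      have h5 : 0 < (u.2.2.im ^ 2 + u.2.2.re ^ 2) / (1 + vv p ^ 2) := by
        apply div_pos _ h0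
        nlinarith
      linarith
    · have h4 : 0 < Complex.normSq u.2.1 := Complex.normSq_pos.2 h2
      linarith
  · have h4 : 0 < Complex.normSq u.1 := Complex.normSq_pos.2 h1
    linarith

/-! ### Invariance -/

theorem vv_act (m n p : ℤ) (q : C3) : vv (act m n p q) = vv q := by
  unfold vv act
  simp only [L3_apply, L2_apply, K1_apply, Complex.add_im, Complex.add_re, Complex.mul_im,
    Complex.intCast_re, Complex.intCast_im]
  ring

theorem Pot_act (m n p : ℤ) (q : C3) : Pot (act m n p q) = Pot q := by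
  unfold Pot
  rw [vv_act]
  unfold act
  simp [L1_apply, L2_apply]

end Pool.Agent.N152.HN
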